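import Pool.Agent.W142.TF.Stm4

set_option autoImplicit false
open Filter Topology Finset
open scoped BoundedContinuousFunction

/-! Project TB: the statements of project HF with a proportion `β` in place of `1 / 4`. -/

namespace Pool.Agent.W142.TB

open Pool.Agent.W634.BQ Pool.Agent.W505.BQ Pool.Agent.W27.FB Pool.Agent.W142.TF

/-- points without large cliques -/
def S_indB : Prop := ∀ β : ℝ, 1 / 5 ≤ β → β ≤ 1 / 2 → ∀ ε : ℝ, 0 < ε → ∃ n₀ P₀ : ℕ, ∀ n p : ℕ, n₀ ≤ n → p.Prime → P₀ ≤ p →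
  ∀ R : Fin n → Fin n → Finset (ZMod p), (∀ i j, i < j → ((R i j).card : ℝ) ≤ (2 * β - ε) * p) →
    ∃ x : Fin n → ZMod p, ∀ I : Finset (Fin n), β * n ≤ I.card → ∃ i ∈ I, ∃ j ∈ I, i < j ∧ x j - x i ∉ R i j

/-- few bad residues -/
def S_locB : Prop := ∀ β : ℝ, 1 / 5 ≤ β → β ≤ 1 / 2 → ∀ ε : ℝ, 0 < ε → ∃ n₀ P₀ : ℕ, ∀ n p : ℕ, n₀ ≤ n → p.Prime → P₀ ≤ p →
  ∀ η : ℝ, 0 < η →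
  ∀ Φ Ψ : ℕ → ℕ → ℤ → ℝ, (∀ i j z, 0 ≤ Ψ i j z ∧ Ψ i j z ≤ 1) →
  (∀ i j : ℕ, i < j → j < n → (∀ z : ℕ, z < p → |Ψ i j z - Ψ i j ((z : ℤ) - p)| ≤ η) ∧
    (1 - 2 * β + ε + 6 * η) * p ≤ ∑ z ∈ range p, Ψ i j z ∧
    ∑ z ∈ range p, ((Φ i j z - Ψ i j z) ^ 2 + (Φ i j ((z : ℤ) - p) - Ψ i j ((z : ℤ) - p)) ^ 2) ≤ η ^ 3 * p) →
  ∃ z : ℕ → ℕ, (∀ j, z j < p) ∧ ∀ I : Finset ℕ, I ⊆ range n → β * n ≤ I.card →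
    ∃ i ∈ I, ∃ j ∈ I, i < j ∧ η < Φ i j ((z j : ℤ) - z i)

/-- a graph on `{0, ..., n-1}` (`s j` is the set of the neighbours `i < j` of `j`) without independent set
of size at least `β n` -/
def NoIndB (β : ℝ) (n : ℕ) (s : ℕ → Finset ℕ) : Prop := (∀ j, s j ⊆ range j) ∧
  ∀ I : Finset ℕ, I ⊆ range n → β * n ≤ I.card → ∃ i ∈ I, ∃ j ∈ I, i ∈ s j

/-- lower bound for the iterated mean of the almost periodic configuration -/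
def S_lowB : Prop := ∀ β : ℝ, 1 / 5 ≤ β → β ≤ 1 / 2 → ∀ ε : ℝ, 0 < ε → ∃ n₀ : ℕ, ∀ n : ℕ, n₀ ≤ n →
  ∀ (m : ℕ → ((ℤ →ᵇ ℝ) →ₗ[ℝ] ℝ)), (∀ j, IsMean (m j)) →
  ∀ (P : ℕ → (ℤ →ᵇ ℝ)) (q S : ℕ → ℕ) (c : ℕ → ℕ → ℕ) (η : ℝ), 0 < η →
  (∀ j < n, (∀ x, 0 ≤ P j x ∧ P j x ≤ 1) ∧ Tor (P j) (q j) ∧ 1 ≤ q j ∧ 1 ≤ S j ∧ q j ∣ S j) →
  (∀ i j, i < j → j < n → q j ∣ c j i ∧ S j = c j i * S i) →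
  ∃ c₀ : ℝ, 0 < c₀ ∧ ∀ (P' : ℕ → (ℤ →ᵇ ℝ)) (r : ℕ → ℤ), (∀ j < n, ∀ x, 0 ≤ P' j x ∧ P' j x ≤ 1) →
    (∀ j, 1 ≤ j → j < n → (1 - 2 * β + ε + 8 * η) / q j ≤ m j (cls (q j) (r j) * P j) ∧
      m j (cls (q j) (r j) * ((P' j - P j) * (P' j - P j))) ≤ η ^ 3 / (2 * (n + 1) ^ 2) / q j) →
    ∃ s : ℕ → Finset ℕ, NoIndB β n s ∧ c₀ ≤ It m n (GP (fun j => cls (q j) (r j)) P' c s n)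

/-- the conclusion for sets of which arbitrarily divisible dilates have upper Banach density above `1 - 2 β` -/
def S_maiB : Prop := ∀ β : ℝ, 1 / 5 ≤ β → β ≤ 1 / 2 → ∀ ε : ℝ, 0 < ε → ∃ n₀ : ℕ, ∀ n : ℕ, n₀ ≤ n → ∀ U : Set ℤ,
  (∀ M : ℕ, 1 ≤ M → ∃ Q : ℕ, 1 ≤ Q ∧ M ∣ Q ∧ ∀ L₀ : ℕ, ∃ L : ℕ, L₀ ≤ L ∧ ∃ u : ℤ,
    (1 - 2 * β + ε) * L ≤ ({n : ℕ | n < L ∧ (Q : ℤ) * (u + (n : ℤ)) ∈ U}.ncard : ℝ)) →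
  ∀ K : ℕ, ∃ (Q : ℕ → ℕ) (A : ℕ → ℕ → ℤ) (s : ℕ → Finset ℕ), NoIndB β n s ∧ (∀ j, 1 ≤ Q j) ∧
    (∀ j, Set.InjOn (A j) {k | k < K}) ∧
    ∀ j < n, ∀ i ∈ s j, ∀ k k', k < K → k' < K → (Q j : ℤ) * A j k - (Q i : ℤ) * A i k' ∈ U

end Pool.Agent.W142.TB
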