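import Pool.Agent.W588.HF.IND
import Pool.Agent.W142.TB.Stm

/-!
# Project TB: points without large cliques (adapted from helper588, project HF)
-/

set_option autoImplicit false

namespace Pool.Agent.W142.TB

open Finset Filter
open Pool.Agent.W142.TF Pool.Agent.W588.HF

/-- the product of the densities is small -/
theorem prod_smallB (h1 : S_rob) {n p : ℕ} [NeZero p] (hp : p.Prime) {β ε δ : ℝ} (hβ : 1 / 5 ≤ β)
    (hβ1 : β ≤ 1 / 2) (hε : 0 < ε) (hε1 : ε ≤ 1 / 5) (hδ : δ = ε / 300) (hpδ : 1 ≤ δ * p) (R : Fin n → Fin n → Finset (ZMod p))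
    (x : Fin n → ZMod p) (W : Finset (Fin n)) (i j : Fin n)
    (hR : ((R i j).card : ℝ) ≤ (2 * β - ε) * p) :
    ((NN R x W i).card : ℝ) / p * (((AA δ R x W i j).card : ℝ) / p) ≤ β ^ 2 - ε / 20 := by
  have hp0 : (0 : ℝ) < p := by exact_mod_cast hp.pos
  have hβ2 : 1 / 25 ≤ β ^ 2 := by nlinarith
  have hδ0 : 0 < δ := by rw [hδ]; positivity
  obtain ⟨ν, hν⟩ : ∃ ν, ν = ((NN R x W i).card : ℝ) / p := ⟨_, rfl⟩
  obtain ⟨α, hα⟩ : ∃ α, α = ((AA δ R x W i j).card : ℝ) / p := ⟨_, rfl⟩
  have hν0 : 0 ≤ ν := by rw [hν]; positivity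
  have hα0 : 0 ≤ α := by rw [hα]; positivity
  have hα1 : α ≤ 1 := by rw [hα, div_le_one hp0]; exact card_le_p _
  rw [← hν, ← hα]
  by_cases hA : (AA δ R x W i j).Nonempty
  · by_cases hN : δ * p + 1 ≤ ((NN R x W i).card : ℝ)
    · have h2 := h1 p hp (AA δ R x W i j) (NN R x W i) (R i j) δ hδ0 (by rw [hδ]; linarith) hA hN
        (fun a ha => by
          classical
          unfold AA at ha
          rw [mem_filter] at ha
          have h3 := ha.2
          unfold bad at h3
          exact h3)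
      have h3 : ((AA δ R x W i j).card : ℝ) + (NN R x W i).card ≤ (2 * β - ε / 2) * p := by
        have h4 : ((min p ((AA δ R x W i j).card + (NN R x W i).card) : ℕ) : ℝ) ≤ (2 * β - ε / 2) * p := by
          refine h2.trans ?_
          rw [hδ] at hpδ ⊢
          nlinarith
        rcases le_total p ((AA δ R x W i j).card + (NN R x W i).card) with h5 | h5
        · rw [min_eq_left h5] at h4
          nlinarith
        · rw [min_eq_right h5] at h4
          push_cast at h4
          exact h4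
      have h4 : α + ν ≤ 2 * β - ε / 2 := by
        rw [hα, hν, ← add_div, div_le_iff₀ hp0]
        exact h3
      nlinarith [sq_nonneg (α - ν), mul_self_nonneg (α + ν)]
    · have h2 : ν ≤ 2 * δ := by
        rw [hν, div_le_iff₀ hp0]
        have := not_le.1 hN
        linarith
      have h3 : ν * α ≤ 2 * δ * 1 := mul_le_mul h2 hα1 hα0 (by positivity)
      rw [hδ] at h3
      linarith
  · rw [not_nonempty_iff_eq_empty] at hA
    have : α = 0 := by rw [hα, hA]; simp
    rw [this, mul_zero]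
    linarith

theorem indB (h1 : S_rob) (h2 : S_che) : S_indB := by
  classical
  intro β hβ hβ1 ε₀ hε₀
  obtain ⟨ε, hε, hε1, hεε⟩ : ∃ ε : ℝ, 0 < ε ∧ ε ≤ 1 / 5 ∧ ε ≤ ε₀ :=
    ⟨min ε₀ (1 / 5), lt_min hε₀ (by norm_num), min_le_right _ _, min_le_left _ _⟩
  obtain ⟨δ, hδ⟩ : ∃ δ : ℝ, δ = ε / 300 := ⟨_, rfl⟩
  have hδ0 : 0 < δ := by rw [hδ]; positivity
  have hδ1 : δ ≤ 1 / 600 := by rw [hδ]; linarith
  obtain ⟨w, hw⟩ : ∃ w : ℕ, 1 / δ ^ 4 ≤ w := exists_nat_ge _
  obtain ⟨n₁, hn₁⟩ := small_exp w hδ0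
  obtain ⟨n₂, hn₂⟩ : ∃ n₂ : ℕ, (2 * (w : ℝ) + 1) * 50 / (3 * ε) < n₂ := exists_nat_gt _
  obtain ⟨P₀, hP₀⟩ := exists_nat_ge (1 / δ)
  refine ⟨max n₁ (max n₂ (5 * (w + 1))), P₀, fun n p hn hp hpP R hR₀ => ?_⟩
  have : NeZero p := ⟨hp.ne_zero⟩
  have hp0 : (0 : ℝ) < p := by exact_mod_cast hp.pos
  have hpδ : 1 ≤ δ * p := by
    rw [div_le_iff₀ hδ0] at hP₀
    have : (P₀ : ℝ) ≤ p := by exact_mod_cast hpP
    nlinarith
  have hnn₁ : n₁ ≤ n := (le_max_left _ _).trans hn
  have hnn₂ : n₂ ≤ n := (le_max_left _ _).trans ((le_max_right _ _).trans hn)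
  have hnn₃ : 5 * (w + 1) ≤ n := (le_max_right _ _).trans ((le_max_right _ _).trans hn)
  have hnpos : 0 < n := by omega
  have hn0 : (0 : ℝ) < n := by exact_mod_cast hnpos
  have hR : ∀ i j, i < j → ((R i j).card : ℝ) ≤ (2 * β - ε) * p := fun i j hij =>
    (hR₀ i j hij).trans (mul_le_mul_of_nonneg_right (by linarith) hp0.le)
  obtain ⟨x, hx⟩ := h2 n p δ hδ0 (by linarith) ((Fin w → Option (Fin n)) × Option (Fin n)) WW
    (FF δ R) (fun τ x i y => FF_01 hnpos δ R τ x i y) (fun τ x x' h => FF_dep δ R τ x x' h) (by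
      have hc : (Fintype.card ((Fin w → Option (Fin n)) × Option (Fin n)) : ℝ) = ((n : ℝ) + 1) ^ (w + 1) := by
        rw [Fintype.card_prod, Fintype.card_fun, Fintype.card_option, Fintype.card_fin, Fintype.card_fin]
        push_cast
        ring
      rw [hc]
      exact hn₁ n hnn₁)
  refine ⟨x, fun I hI => ?_⟩
  by_contra hcon
  push Not at hcon
  obtain ⟨W, hWI, -, hW2, hW3⟩ := greedy R x I (δ ^ 4 * n * p) n le_rfl
  have hWw : W.card ≤ w := by
    have h3 : 0 ≤ ∑ i, ((NN R x W i).card : ℝ) := sum_nonneg fun _ _ => Nat.cast_nonneg _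
    have h4 : (W.card : ℝ) * (δ ^ 4 * n * p) ≤ n * p := by linarith
    have h5 : (W.card : ℝ) * δ ^ 4 ≤ 1 := by
      have h6 : ((W.card : ℝ) * δ ^ 4) * (n * p) ≤ 1 * (n * p) := by linarith
      exact le_of_mul_le_mul_right h6 (by positivity)
    have h6 : (W.card : ℝ) ≤ 1 / δ ^ 4 := by rw [le_div_iff₀ (by positivity)]; exact h5
    exact_mod_cast h6.trans hw
  obtain ⟨g, hg⟩ := exists_g W hWw
  have hSS : SS g = W := hg
  obtain ⟨J, hJ⟩ : ∃ J, J = I \ W := ⟨_, rfl⟩
  obtain ⟨c, hc⟩ : ∃ c : ℝ, c = β ^ 2 - ε / 20 := ⟨_, rfl⟩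
  have hc0 : 0 ≤ c := by rw [hc]; nlinarith
  -- the main count
  have hcount : ∀ j ∈ J, ((J.filter (fun i => i < j)).card : ℝ) ≤
      δ ^ 2 * n + δ * n + n * f2 δ R x W j (x j) := by
    intro j hj
    rw [hJ, Finset.mem_sdiff] at hj
    obtain ⟨V, hV⟩ : ∃ V, V = W.filter (fun k => j < k) := ⟨_, rfl⟩
    have hsum := hW2 j hj.1 (by omega) hj.2
    rw [← hV] at hsum
    obtain ⟨B, hB⟩ : ∃ B, B = univ.filter
      (fun i => i < j ∧ δ ^ 2 * p < ((bad R x V i j (x j)).card : ℝ)) := ⟨_, rfl⟩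
    obtain ⟨G, hG⟩ : ∃ G, G = univ.filter
      (fun i => i < j ∧ x j ∈ AA δ R x V i j ∧ x i ∈ NN R x V i) := ⟨_, rfl⟩
    have hsub : J.filter (fun i => i < j) ⊆ B ∪ G := by
      intro i hi
      rw [mem_filter, hJ, Finset.mem_sdiff] at hi
      obtain ⟨⟨hiI, hiW⟩, hij⟩ := hi
      rw [mem_union, hB, hG, mem_filter, mem_filter]
      by_cases hb : δ ^ 2 * p < ((bad R x V i j (x j)).card : ℝ)
      · exact Or.inl ⟨mem_univ _, hij, hb⟩
      · refine Or.inr ⟨mem_univ _, hij, ?_, ?_⟩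
        · unfold AA
          rw [mem_filter]
          exact ⟨mem_univ _, not_lt.1 hb⟩
        · unfold NN
          rw [mem_filter]
          refine ⟨mem_univ _, fun k hk => ?_⟩
          rw [hV, mem_filter] at hk
          exact hcon i hiI k (hWI hk.1) (hij.trans hk.2)
    have hcard : ((J.filter (fun i => i < j)).card : ℝ) ≤ (B.card : ℝ) + G.card := by
      exact_mod_cast (card_le_card hsub).trans (card_union_le _ _)
    have hBc : (B.card : ℝ) ≤ δ ^ 2 * n := by
      have h3 : (B.card : ℝ) * (δ ^ 2 * p) ≤ ∑ i ∈ B, ((bad R x V i j (x j)).card : ℝ) := by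
        rw [← nsmul_eq_mul]
        refine card_nsmul_le_sum _ _ _ fun i hi => ?_
        rw [hB, mem_filter] at hi
        exact hi.2.2.le
      have h4 : ∑ i ∈ B, ((bad R x V i j (x j)).card : ℝ) ≤
          ∑ i ∈ univ.filter (fun i => i < j), ((bad R x V i j (x j)).card : ℝ) := by
        refine sum_le_sum_of_subset_of_nonneg (fun i hi => ?_) fun _ _ _ => Nat.cast_nonneg _
        rw [hB, mem_filter] at hi
        rw [mem_filter]
        exact ⟨mem_univ _, hi.2.1⟩
      have h5 : (B.card : ℝ) * (δ ^ 2 * p) ≤ (δ ^ 2 * n) * (δ ^ 2 * p) := by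
        calc (B.card : ℝ) * (δ ^ 2 * p) ≤ δ ^ 4 * n * p := by linarith
          _ = _ := by ring
      exact le_of_mul_le_mul_right h5 (by positivity)
    have hGc : (G.card : ℝ) ≤ δ * n + n * f2 δ R x W j (x j) := by
      have h3 := hx (g, some j)
      have e1 : WW (g, some j) = insert j V := by
        unfold WW; simp only; rw [hSS, hV]
      have e2 : ∀ i y, FF δ R (g, some j) x i y = f1 δ R x V j i y := by
        intro i y
        unfold FF; simp only; rw [hSS, hV]
      rw [e1] at h3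
      simp only [e2, f1_mean] at h3
      have h4 : (G.card : ℝ) ≤ ∑ i ∈ univ \ insert j V, f1 δ R x V j i (x i) := by
        have h5 : (G.card : ℝ) = ∑ i ∈ G, f1 δ R x V j i (x i) := by
          rw [sum_congr rfl (g := fun _ => (1 : ℝ)) fun i hi => by
            rw [hG, mem_filter] at hi
            unfold f1
            rw [if_pos hi.2]]
          simp
        rw [h5]
        refine sum_le_sum_of_subset_of_nonneg (fun i hi => ?_) fun i _ _ => ?_
        · rw [hG, mem_filter] at hi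
          rw [Finset.mem_sdiff, mem_insert, not_or]
          refine ⟨mem_univ _, hi.2.1.ne, fun h => ?_⟩
          rw [hV, mem_filter] at h
          exact absurd h.2 (not_lt.2 hi.2.1.le)
        · unfold f1
          split_ifs
          · exact zero_le_one
          · exact le_rfl
      have h5 : ∑ i ∈ univ \ insert j V, (if i < j then ((NN R x V i).card : ℝ) / p *
          (if x j ∈ AA δ R x V i j then (1 : ℝ) else 0) else 0) ≤ n * f2 δ R x W j (x j) := by
        unfold f2
        rw [← hV, ← mul_assoc, mul_one_div_cancel hn0.ne', one_mul, sum_filter]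
        refine sum_le_sum_of_subset_of_nonneg (subset_univ _) fun i _ _ => ?_
        split_ifs
        · positivity
        · positivity
        · exact le_rfl
      linarith
    linarith
  -- summation
  have hsumJ := sum_le_sum hcount
  have hpairs := sum_pairs J
  rw [sum_add_distrib, sum_const, nsmul_eq_mul, ← mul_sum] at hsumJ
  have hf2nn : ∀ j, 0 ≤ f2 δ R x W j (x j) := fun j => by
    have := (FF_01 hnpos δ R ((g, none) : (Fin w → Option (Fin n)) × Option (Fin n)) x j (x j)).1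
    unfold FF at this
    simp only at this
    rw [hSS] at this
    exact this
  have hJsub : ∑ j ∈ J, f2 δ R x W j (x j) ≤ ∑ j ∈ univ \ W, f2 δ R x W j (x j) := by
    refine sum_le_sum_of_subset_of_nonneg (fun j hj => ?_) fun j _ _ => hf2nn j
    rw [hJ, Finset.mem_sdiff] at hj
    rw [Finset.mem_sdiff]
    exact ⟨mem_univ _, hj.2⟩
  have htest := hx (g, none)
  have e1 : WW ((g, none) : (Fin w → Option (Fin n)) × Option (Fin n)) = W := by
    unfold WW; simp only; exact hSS
  have e2 : ∀ j y, FF δ R ((g, none) : (Fin w → Option (Fin n)) × Option (Fin n)) x j y =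
      f2 δ R x W j y := by
    intro j y
    unfold FF; simp only; rw [hSS]
  rw [e1] at htest
  simp only [e2, f2_mean] at htest
  have hmean : ∑ j ∈ univ \ W, ((1 / (n : ℝ)) * ∑ i ∈ univ.filter (fun i => i < j),
        ((NN R x (W.filter (fun k => j < k)) i).card : ℝ) / p *
          (((AA δ R x (W.filter (fun k => j < k)) i j).card : ℝ) / p)) ≤ c * n / 2 := by
    have h3 : ∀ j : Fin n, (1 / (n : ℝ)) * ∑ i ∈ univ.filter (fun i => i < j),
        ((NN R x (W.filter (fun k => j < k)) i).card : ℝ) / p *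
          (((AA δ R x (W.filter (fun k => j < k)) i j).card : ℝ) / p) ≤
        (1 / (n : ℝ)) * (((univ.filter (fun i => i < j)).card : ℝ) * c) := by
      intro j
      refine mul_le_mul_of_nonneg_left ?_ (by positivity)
      rw [← nsmul_eq_mul]
      refine sum_le_card_nsmul _ _ _ fun i hi => ?_
      rw [hc]
      exact prod_smallB h1 hp hβ hβ1 hε hε1 hδ hpδ R x _ i j (hR i j (mem_filter.1 hi).2)
    have h4 : ∑ j ∈ univ \ W, ((1 / (n : ℝ)) * ∑ i ∈ univ.filter (fun i => i < j),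
        ((NN R x (W.filter (fun k => j < k)) i).card : ℝ) / p *
          (((AA δ R x (W.filter (fun k => j < k)) i j).card : ℝ) / p)) ≤
        ∑ j : Fin n, (1 / (n : ℝ)) * (((univ.filter (fun i => i < j)).card : ℝ) * c) := by
      refine (sum_le_sum fun j _ => h3 j).trans ?_
      exact sum_le_sum_of_subset_of_nonneg (subset_univ _) fun j _ _ => by positivity
    have h5 := sum_pairs (univ : Finset (Fin n))
    rw [card_univ, Fintype.card_fin] at h5
    have h7 : ∑ j : Fin n, (1 / (n : ℝ)) * (((univ.filter (fun i => i < j)).card : ℝ) * c) =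
        1 / (n : ℝ) * ((∑ j : Fin n, ((univ.filter (fun i : Fin n => i < j)).card : ℝ)) * c) := by
      rw [← mul_sum, ← sum_mul]
    rw [h7] at h4
    have h6 : ∑ j : Fin n, ((univ.filter (fun i : Fin n => i < j)).card : ℝ) ≤ (n : ℝ) * n / 2 := by
      nlinarith
    refine h4.trans ?_
    calc 1 / (n : ℝ) * ((∑ j : Fin n, ((univ.filter (fun i : Fin n => i < j)).card : ℝ)) * c)
        ≤ 1 / (n : ℝ) * (((n : ℝ) * n / 2) * c) := by gcongr
      _ = c * n / 2 := by field_simp
  have hJn : (J.card : ℝ) ≤ n := by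
    have := card_le_univ J
    rw [Fintype.card_fin] at this
    exact_mod_cast this
  have hJlow : β * n - w ≤ J.card := by
    have h3 : I.card ≤ J.card + W.card := by
      rw [hJ]
      have := card_sdiff_add_card I W
      have h4 := card_le_card (subset_union_left (s₁ := I) (s₂ := W))
      omega
    have h4 : (I.card : ℝ) ≤ J.card + W.card := by exact_mod_cast h3
    have h5 : (W.card : ℝ) ≤ w := by exact_mod_cast hWw
    linarith
  have hn4 : (w : ℝ) + 1 ≤ β * n := by
    have : ((5 * (w + 1) : ℕ) : ℝ) ≤ n := by exact_mod_cast hnn₃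
    push_cast at this
    nlinarith
  have hδ2 : δ ^ 2 ≤ δ := by nlinarith
  -- upper bound for the number of pairs
  have hup : ∑ j ∈ J, ((J.filter (fun i => i < j)).card : ℝ) ≤ 3 * δ * n ^ 2 + c * n ^ 2 / 2 := by
    have h3 : (J.card : ℝ) * (δ ^ 2 * n + δ * n) ≤ n * (δ ^ 2 * n + δ * n) :=
      mul_le_mul_of_nonneg_right hJn (by positivity)
    have h4 : (n : ℝ) * ∑ j ∈ J, f2 δ R x W j (x j) ≤ n * (c * n / 2 + δ * n) :=
      mul_le_mul_of_nonneg_left (by linarith) hn0.le
    have h5 : (n : ℝ) * (δ ^ 2 * n) ≤ n * (δ * n) := by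
      apply mul_le_mul_of_nonneg_left _ hn0.le
      exact mul_le_mul_of_nonneg_right hδ2 hn0.le
    calc ∑ j ∈ J, ((J.filter (fun i => i < j)).card : ℝ) ≤ _ := hsumJ
      _ ≤ 3 * δ * n ^ 2 + c * n ^ 2 / 2 := by nlinarith
  have hlow : (β * n - w) * (β * n - w - 1) ≤ (J.card : ℝ) * (J.card - 1) := by
    apply mul_le_mul hJlow (by linarith) (by linarith) (Nat.cast_nonneg _)
  have hfin : (n : ℝ) * (3 * ε / 100) ≤ (2 * w + 1) / 2 := by
    have h3 : (β * n - w) * (β * n - w - 1) ≤ 2 * (3 * δ * n ^ 2 + c * n ^ 2 / 2) := by linarith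
    rw [hδ, hc] at h3
    have hw0 : (0 : ℝ) ≤ w := Nat.cast_nonneg w
    have h5 : 0 ≤ (w : ℝ) * (w + 1) := by positivity
    have h6 : β * (n * (2 * w + 1)) ≤ 1 / 2 * (n * (2 * w + 1)) :=
      mul_le_mul_of_nonneg_right hβ1 (by positivity)
    have h4 : (n : ℝ) * (n * (3 * ε / 100)) ≤ n * ((2 * w + 1) / 2) := by nlinarith
    exact le_of_mul_le_mul_left h4 hn0
  have hn₂' : (2 * (w : ℝ) + 1) * 50 / (3 * ε) < n := lt_of_lt_of_le hn₂ (by exact_mod_cast hnn₂)
  rw [div_lt_iff₀ (by positivity)] at hn₂'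
  linarith

end Pool.Agent.W142.TB
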