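import Pool.Agent.W571.HF.Loc
import Pool.Agent.W142.TB.Stm

set_option autoImplicit false
open Filter Topology Finset
open scoped BoundedContinuousFunction

/-! Project TB: few bad residues (adapted from helper571, project HF). -/

namespace Pool.Agent.W142.TB

open Pool.Agent.W634.BQ Pool.Agent.W505.BQ Pool.Agent.W27.FB Pool.Agent.W142.TF Pool.Agent.W571.HF Pool.Agent.W335.TF

theorem locB : S_indB → S_locB := by
  intro hind β hβ hβ1 ε hε
  obtain ⟨n₀, P₀, hind⟩ := hind β hβ hβ1 ε hε
  refine ⟨n₀, P₀, ?_⟩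
  intro n p hn hp hP η hη Φ Ψ hΨ h
  classical
  have : NeZero p := ⟨hp.ne_zero⟩
  have hp0 : (0 : ℝ) ≤ p := Nat.cast_nonneg p
  obtain ⟨x, hx⟩ := hind n p hn hp hP
    (fun i j => (bad p η (Φ i j)).image fun z : ℕ => (z : ZMod p)) (by
      intro i j hij
      obtain ⟨a1, a2, a3⟩ := h i j hij j.2
      have h1 := card_bad2 p (A := 1 - 2 * β + ε) hη (Φ i j) (Ψ i j) (hΨ i j) a1 a2 a3
      have h2 : (((bad p η (Φ i j)).image fun z : ℕ => (z : ZMod p)).card : ℝ) ≤
          ((bad p η (Φ i j)).card : ℝ) := by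
        exact_mod_cast Finset.card_image_le
      refine h2.trans (h1.trans ?_)
      nlinarith [mul_nonneg hη.le hp0])
  refine ⟨fun j => if hj : j < n then (x ⟨j, hj⟩).val else 0, ?_, ?_⟩
  · intro j
    by_cases hj : j < n
    · simp only [hj, dif_pos]
      exact ZMod.val_lt _
    · simp only [hj, dif_neg, not_false_eq_true]
      exact hp.pos
  · intro I hI hIc
    have hcard : ((univ : Finset (Fin n)).filter fun i : Fin n => (i : ℕ) ∈ I).card = I.card := by
      refine Finset.card_bij (fun i _ => (i : ℕ)) ?_ ?_ ?_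
      · intro i hi
        exact (Finset.mem_filter.1 hi).2
      · intro i _ j _ hij
        exact Fin.ext hij
      · intro b hb
        exact ⟨⟨b, Finset.mem_range.1 (hI hb)⟩, by simp [hb], rfl⟩
    obtain ⟨i', hi', j', hj', hij, hnot⟩ := hx
      ((univ : Finset (Fin n)).filter fun i : Fin n => (i : ℕ) ∈ I) (by rw [hcard]; exact hIc)
    refine ⟨i', (Finset.mem_filter.1 hi').2, j', (Finset.mem_filter.1 hj').2, hij, ?_⟩
    obtain ⟨i, hi⟩ := i'
    obtain ⟨j, hj⟩ := j'
    simp only at hnot ⊢
    simp only [hi, hj, dif_pos]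
    set a : ℕ := (x ⟨j, hj⟩).val with ha
    set b : ℕ := (x ⟨i, hi⟩).val with hb
    have ha' : a < p := ZMod.val_lt _
    have hb' : b < p := ZMod.val_lt _
    have hxa : x ⟨j, hj⟩ = ((a : ℕ) : ZMod p) := (ZMod.natCast_zmod_val _).symm
    have hxb : x ⟨i, hi⟩ = ((b : ℕ) : ZMod p) := (ZMod.natCast_zmod_val _).symm
    have key : ∀ w : ℕ, w < p → ((w : ℕ) : ZMod p) = x ⟨j, hj⟩ - x ⟨i, hi⟩ →
        η < Φ i j w ∧ η < Φ i j ((w : ℤ) - p) := by
      intro w hw hwx
      have hwb : w ∉ bad p η (Φ i j) := by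
        intro hmem
        apply hnot
        rw [← hwx]
        exact Finset.mem_image_of_mem _ hmem
      rw [mem_bad] at hwb
      push Not at hwb
      exact hwb hw
    rcases le_total b a with hab | hab
    · obtain ⟨w, hw⟩ := Nat.exists_eq_add_of_le hab
      have h1 := (key w (by omega) (by rw [hxa, hxb, hw]; push_cast; ring)).1
      have e : (a : ℤ) - b = w := by rw [hw]; push_cast; ring
      rw [e]
      exact h1
    · have h1 := key ((a + p - b) % p) (Nat.mod_lt _ hp.pos) (by
        rw [hxa, hxb, ZMod.natCast_mod, Nat.cast_sub (by omega)]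
        push_cast
        simp)
      by_cases hEq : a = b
      · have e0 : (a + p - b) % p = 0 := by
          rw [hEq]
          simp
        rw [e0] at h1
        have e : (a : ℤ) - b = ((0 : ℕ) : ℤ) := by rw [hEq]; simp
        rw [e]
        exact h1.1
      · have e0 : (a + p - b) % p = a + p - b := Nat.mod_eq_of_lt (by omega)
        rw [e0] at h1
        have e : (a : ℤ) - b = ((a + p - b : ℕ) : ℤ) - p := by
          rw [Nat.cast_sub (by omega)]
          push_cast
          ring
        rw [e]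
        exact h1.2

end Pool.Agent.W142.TB
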