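import Pool.Agent.W142.TF.MaiG
import Pool.Agent.W142.TB.Stm

set_option autoImplicit false
open Filter Topology Finset
open scoped BoundedContinuousFunction

/-! Project TB: sets of which arbitrarily divisible dilates have upper Banach density above `1 - 2 β`. -/

namespace Pool.Agent.W142.TB

open Pool.Agent.W634.BQ Pool.Agent.W505.BQ Pool.Agent.W27.FB Pool.Agent.W142.TF

theorem maiB (hban : S_ban) (happr : S_appr) (hcls : S_cls) (hlev : S_lev) (hlow : S_lowB) (hcmp : S_cmpG)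
    (hblo : S_blo) : S_maiB := by
  intro β hβ hβ1 ε hε
  obtain ⟨n₀, hn₀⟩ := hlow β hβ hβ1 (ε / 2) (by positivity)
  refine ⟨n₀, fun n hn U H K => ?_⟩
  classical
  have hε1 : ε ≤ 1 := by
    obtain ⟨Q, _, _, hQ⟩ := H 1 le_rfl
    have := Den.le_one (U := U) (ρ := 1 - 2 * β + ε) (Q := Q) hQ
    linarith
  set η : ℝ := ε / 32 with hη
  have hη0 : 0 < η := by positivity
  have hη1 : η ≤ 1 / 32 := by rw [hη]; linarith
  set κ : ℝ := η ^ 3 / (2 * (n + 1) ^ 2) with hκ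
  have hκ0 : 0 < κ := by positivity
  have hκ1 : κ ≤ 1 := by
    rw [hκ, div_le_one (by positivity)]
    have h1 : η ^ 3 ≤ 1 := pow_le_one₀ hη0.le (by linarith)
    have h2 : (1 : ℝ) ≤ ((n : ℝ) + 1) ^ 2 := one_le_pow₀ (by
      have := Nat.cast_nonneg (α := ℝ) n
      linarith)
    linarith
  set εc : ℝ := κ * η with hεc
  have hεc0 : 0 < εc := by positivity
  obtain ⟨M, PP, qq, hdat⟩ := level_data hban happr hcls U (1 - 2 * β + ε) εc hεc0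
  obtain ⟨Qf, c, S, hQ1, hc1, hcQ, hS1, hcS⟩ := levels n (Den U (1 - 2 * β + ε))
    (fun N hN => by obtain ⟨Q, h1, h2, h3⟩ := H N hN; exact ⟨Q, h3, h1, h2⟩) qq (fun Q hQ => (hdat Q hQ).2.2.2.2.1)
  have hM : ∀ j, IsMean (M (Qf j)) := fun j => (hdat _ (hQ1 j).1).1
  have hE : ∀ j, Extr (M (Qf j)) := fun j => (hdat _ (hQ1 j).1).2.1
  have hMd : ∀ j, 1 - 2 * β + ε ≤ M (Qf j) (ind {k : ℤ | (Qf j : ℤ) * k ∈ U}) := fun j => (hdat _ (hQ1 j).1).2.2.1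
  have hA : ∀ j, App (M (Qf j)) {k : ℤ | (Qf j : ℤ) * k ∈ U} (PP (Qf j)) εc := fun j => (hdat _ (hQ1 j).1).2.2.2.1
  have hq1 : ∀ j, 1 ≤ qq (Qf j) := fun j => (hdat _ (hQ1 j).1).2.2.2.2.1
  have hT : ∀ j, Tor (PP (Qf j)) (qq (Qf j)) := fun j => (hdat _ (hQ1 j).1).2.2.2.2.2
  obtain ⟨c₀, hc₀, hlowa⟩ := hn₀ n hn (fun j => M (Qf j)) hM (fun j => PP (Qf j)) (fun j => qq (Qf j)) S c η hη0
    (fun j hj => ⟨(hA j).2.1, hT j, hq1 j, (hS1 j hj).1, (hS1 j hj).2⟩) hcS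
  -- the fine approximation
  set ε' : ℝ := min εc (c₀ / (4 * (n + 1) ^ 2)) with hε'
  have hε'0 : 0 < ε' := lt_min hεc0 (by positivity)
  have hfine : ∀ j : ℕ, ∃ (P' : ℤ →ᵇ ℝ) (r : ℤ), App (M (Qf j)) {k : ℤ | (Qf j : ℤ) * k ∈ U} P' ε' ∧
      (1 - 2 * β + ε / 2 + 8 * η) / qq (Qf j) ≤ M (Qf j) (cls (qq (Qf j)) r * PP (Qf j)) ∧
      M (Qf j) (cls (qq (Qf j)) r * ((P' - PP (Qf j)) * (P' - PP (Qf j)))) ≤ κ / qq (Qf j) := by
    intro j
    obtain ⟨P', h1, h2, h3⟩ := happr (M (Qf j)) (hM _) (hE _) {k : ℤ | (Qf j : ℤ) * k ∈ U} ε' hε'0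
    have hg : 1 - 2 * β + ε / 2 + 8 * η ≤ 1 - 2 * β + ε - εc - (εc + ε') / κ := by
      have e1 : (εc + ε') / κ ≤ 2 * η := by
        rw [div_le_iff₀ hκ0]
        have : ε' ≤ εc := min_le_left _ _
        have : εc = κ * η := hεc
        nlinarith
      have e2 : εc ≤ η := by rw [hεc]; nlinarith
      have e3 : ε = 32 * η := by rw [hη]; ring
      linarith
    obtain ⟨r, hr1, hr2⟩ := hlev (M (Qf j)) (hM _) {k : ℤ | (Qf j : ℤ) * k ∈ U} (PP (Qf j)) P' εc ε' (1 - 2 * β + ε) κ hκ0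
      (hA _) ⟨h1, h2, h3⟩ (hMd _) (by linarith) (qq (Qf j)) (hq1 _)
    refine ⟨P', r, ⟨h1, h2, h3⟩, le_trans ?_ hr1, hr2⟩
    have : (0 : ℝ) < qq (Qf j) := by exact_mod_cast hq1 j
    exact div_le_div_of_nonneg_right hg this.le
  choose P' r hA' hr1 hr2 using hfine
  obtain ⟨s, hs, hlow5⟩ := hlowa P' r (fun j _ => (hA' j).2.1) (fun j _ _ => ⟨hr1 j, hr2 j⟩)
  have hcmp5 := hcmp (fun j => M (Qf j)) hM (fun j => {k : ℤ | (Qf j : ℤ) * k ∈ U}) P' ε' hε'0 hA' c hc1 s hs.1 n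
    (fun j => cls (qq (Qf j)) (r j)) (fun j => hcls.1 _ _ (hq1 _))
  have hFV : 0 < It (fun j => M (Qf j)) n
      (GV (fun j => cls (qq (Qf j)) (r j)) (fun j => {k : ℤ | (Qf j : ℤ) * k ∈ U}) c s n) := by
    have h1 := (abs_le.1 hcmp5).1
    have h2 : ε' ≤ c₀ / (4 * (n + 1) ^ 2) := min_le_right _ _
    rw [le_div_iff₀ (by positivity)] at h2
    have h3 : (n : ℝ) ^ 2 * ε' ≤ ((n : ℝ) + 1) ^ 2 * ε' := by
      refine mul_le_mul_of_nonneg_right ?_ hε'0.le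
      have := Nat.cast_nonneg (α := ℝ) n
      nlinarith
    nlinarith
  have hcls01 : ∀ (j : ℕ) (n : ℤ), 0 ≤ cls (qq (Qf j)) (r j) n ∧ cls (qq (Qf j)) (r j) n ≤ 1 := fun j n => ind01 _ _
  have hGV01 : ∀ a, 0 ≤ GV (fun j => cls (qq (Qf j)) (r j)) (fun j => {k : ℤ | (Qf j : ℤ) * k ∈ U}) c s n a ∧
      GV (fun j => cls (qq (Qf j)) (r j)) (fun j => {k : ℤ | (Qf j : ℤ) * k ∈ U}) c s n a ≤ 1 := fun a =>
    prod01 _ _ fun j _ => mul01 (hcls01 j _) (prod01 _ _ fun i _ => ind01 _ _)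
  obtain ⟨E, hEdef⟩ : ∃ E : (ℕ → ℤ) → Prop,
      ∀ a, E a ↔ ∀ j, j < n → ∀ i ∈ s j, a j - c j i * a i ∈ {k : ℤ | (Qf j : ℤ) * k ∈ U} := ⟨_, fun _ => Iff.rfl⟩
  have hpos : 0 < It (fun j => M (Qf j)) n (fun a => if E a then 1 else 0) := by
    refine lt_of_lt_of_le hFV (It_mono (fun j => hM _) n (C := 1) (D := 1)
      (fun a => abs01 (hGV01 a)) (fun a => ?_) fun a => ?_)
    · split_ifs <;> simp
    · split_ifs with h
      · exact (hGV01 a).2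
      · rw [hEdef] at h
        push Not at h
        obtain ⟨j, hj, i, hi, hn⟩ := h
        refine le_of_eq (prod_eq_zero (mem_range.2 hj) ?_)
        rw [prod_eq_zero hi (ind_notMem hn), mul_zero]
  obtain ⟨A, hinj, hAE⟩ := hblo (fun j => M (Qf j)) hM n K E hpos
  refine ⟨Qf, A, s, hs, fun j => (hQ1 j).2, hinj, ?_⟩
  intro j hj i hi k k' hk hk'
  have hij : i < j := mem_range.1 (hs.1 j hi)
  have h := (hEdef _).1 (hAE (fun l => if l = j then k else k') (fun l _ => by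
    split_ifs <;> assumption)) j hj i hi
  have hi' : i < n := hij.trans hj
  simp only [hj, hi', if_true, hij.ne, if_false] at h
  have h' : (Qf j : ℤ) * (A j k - c j i * A i k') ∈ U := h
  rw [mul_sub, ← mul_assoc, ← Nat.cast_mul, hcQ i j hij hj] at h'
  exact h'

end Pool.Agent.W142.TB
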