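import Pool.Agent.W142.TF.AllG
import Pool.Agent.W142.TB.Ind
import Pool.Agent.W142.TB.Loc
import Pool.Agent.W142.TB.Low
import Pool.Agent.W142.TB.Mai

set_option autoImplicit false

/-! Project TB: assembly. -/

namespace Pool.Agent.W142.TB

open Pool.Agent.W142.TF

theorem s_indB : S_indB := indB (Pool.Agent.W824.HF.rob Pool.Agent.W333.HF.pol) Pool.Agent.W311.HF.che

theorem s_lowB : S_lowB := lowB s_per (locB s_indB) Pool.Agent.W681.TF.clss

theorem s_maiB : S_maiB := maiB Pool.Agent.W756.TF.ban s_appr Pool.Agent.W681.TF.clss Pool.Agent.W681.TF.lev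
  s_lowB s_cmpG Pool.Agent.W597.TF.blo

end Pool.Agent.W142.TB
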