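import Pool.Agent.W142.TB.All
import Pool.Agent.W142.TF.NthJ
import Pool.Agent.W25.UB.Stm7

set_option autoImplicit false
open Filter Topology Finset

/-! Project TB: more than half of the multiples of every sufficiently divisible number are differences
of primes. -/

namespace Pool.Agent.W142.TB

open Pool.Agent.H947R3.GM Pool.Agent.H732R3.BigQ Pool.Agent.W59.GB Pool.Agent.W142.TF Pool.Agent.W25.UB

theorem hfB (hCB : St_CB) : ∃ δ : ℝ, 0 < δ ∧ ∃ J : ℕ, ∀ (q a : ℕ), 0 < q → 2 ∣ q → Squarefree q →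
    a.Coprime q →
    ∃ M : ℕ, 0 < M ∧ ∀ N : ℕ, 0 < N → M ∣ N → ∃ L : ℕ, ∀ T : ℕ, L ≤ T → ∀ u : ℕ,
      (1 / 2 + δ) * T ≤ ({k : ℕ | u < k ∧ k ≤ u + T ∧ N * k ∈ DiffJ J q a}.ncard : ℝ) := by
  classical
  obtain ⟨c₁, hc0, hc1, hCB⟩ := hCB
  obtain ⟨β, hβ⟩ : ∃ β : ℝ, β = 1 / (4 - c₁) := ⟨_, rfl⟩
  have h4 : 0 < 4 - c₁ := by linarith
  have hβ5 : 1 / 5 ≤ β := by
    rw [hβ, div_le_div_iff₀ (by norm_num) h4]; linarith
  have hβ2 : β ≤ 1 / 2 := by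
    rw [hβ, div_le_div_iff₀ h4 (by norm_num)]; linarith
  have hβc : 1 / 2 + c₁ / 8 ≤ 2 * β := by
    have e : β * (4 - c₁) = 1 := by rw [hβ]; field_simp
    nlinarith
  obtain ⟨n₀, hn₀⟩ := s_maiB β hβ5 hβ2 (c₁ / 16) (by positivity)
  obtain ⟨n, hn⟩ : ∃ n, n = max n₀ 1 := ⟨_, rfl⟩
  have hnn₀ : n₀ ≤ n := by omega
  have hn1 : 1 ≤ n := by omega
  have hn1' : (1 : ℝ) ≤ n := by exact_mod_cast hn1
  -- the number of classes
  obtain ⟨M', hM'⟩ : ∃ M', M' = ⌈β * n⌉₊ - 1 := ⟨_, rfl⟩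
  have hβn : 0 < β * n := by positivity
  have hceil : 0 < ⌈β * n⌉₊ := Nat.ceil_pos.2 hβn
  have hM'1 : M' + 1 = ⌈β * n⌉₊ := by omega
  have hM'lt : (M' : ℝ) < β * n := by
    have h := Nat.ceil_lt_add_one hβn.le
    have h2 : ((M' + 1 : ℕ) : ℝ) = (⌈β * n⌉₊ : ℝ) := by rw [hM'1]
    push_cast at h2
    linarith
  have hM'n : (4 - c₁) * M' < n := by
    have h : (4 - c₁) * M' < (4 - c₁) * (β * n) := mul_lt_mul_of_pos_left hM'lt h4
    have e : (4 - c₁) * (β * n) = n := by rw [hβ]; field_simp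
    linarith
  obtain ⟨K, hK, hQ⟩ := hCB n M' hn1 hM'n
  refine ⟨c₁ / 16, by positivity, n * K, fun q a hq h2q hsq ha => ?_⟩
  obtain ⟨M, hM, hall⟩ := windows (DiffJ (n * K) q a) (n * K).factorial (Nat.factorial_pos _) (2 * β) (c₁ / 16)
    (fun hall => by
      obtain ⟨Q, A, s, hs, hQ1, hinj, hcr⟩ := hn₀ n hnn₀
        {k : ℤ | (((n * K).factorial : ℕ) : ℤ) * k ∈ Cpl (DiffJ (n * K) q a)}
        (fun M hM => by
          obtain ⟨Q, h1, h2, h3⟩ := hall M hM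
          exact ⟨Q, h1, h2, fun L₀ => h3 L₀⟩) (n * K)
      -- distinct points
      obtain ⟨σ, hσ1, hσ2⟩ := select_aux n K (fun g i => (Q g : ℤ) * A g i) (fun g => by
        intro x hx y hy hxy
        have hQ0 : (Q g : ℤ) ≠ 0 := by have := hQ1 g; omega
        exact hinj g hx hy (mul_left_cancel₀ hQ0 hxy)) n le_rfl
      obtain ⟨H, C, hH⟩ := points n K (n * K).factorial Q (fun g i => A g (σ g i))
      have hM0 : (((n * K).factorial : ℕ) : ℤ) ≠ 0 := by exact_mod_cast (Nat.factorial_pos (n * K)).ne'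
      have hHinj : ∀ (g g' : Fin n) (i i' : Fin K), H g i = H g' i' → g = g' ∧ i = i' := by
        intro g g' i i' h
        have e : (((n * K).factorial : ℕ) : ℤ) * (Q g * A g (σ g i) + C) =
            ((n * K).factorial : ℕ) * (Q g' * A g' (σ g' i') + C) := by rw [← hH, ← hH, h]
        have e1 := mul_left_cancel₀ hM0 e
        have e2 : (Q g : ℤ) * A g (σ g i) = Q g' * A g' (σ g' i') := by linarith
        have e3 := hσ2 g g.2 g' g'.2 i i.2 i' i'.2 e2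
        exact ⟨Fin.ext e3.1, Fin.ext e3.2⟩
      have hadm : AdmN q H := by
        refine admN_of' H (fun x y h => ?_) fun p hp hle g i => ?_
        · have := hHinj x.1 y.1 x.2 y.2 h
          exact Prod.ext this.1 this.2
        · rw [hH]
          exact Dvd.dvd.mul_right (Int.natCast_dvd_natCast.2 (Nat.dvd_factorial hp.pos hle)) _
      obtain ⟨Qm, r, M, S, c, hQm, hNQ, hr, hM, hS, hB⟩ := hQ q a hq h2q hsq ha H hadm
      obtain ⟨i, hi, j, hj, hij⟩ := hs.2 (S.map Fin.valEmbedding) (fun x hx => by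
        rw [Finset.mem_map] at hx
        obtain ⟨y, _, rfl⟩ := hx
        exact mem_range.2 y.2) (by
          rw [card_map]
          refine (Nat.le_ceil _).trans ?_
          rw [← hM'1]
          exact_mod_cast hS)
      rw [Finset.mem_map] at hi hj
      obtain ⟨i', hi', rfl⟩ := hi
      obtain ⟨j', hj', rfl⟩ := hj
      have hd := hcr j' j'.2 i' hij (σ j' (c j')) (σ i' (c i')) (hσ1 _ j'.2 _ (c j').2) (hσ1 _ i'.2 _ (c i').2)
      have h := not_Cpl C (hH j' (c j')) (hH i' (c i')) hd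
      rcases lt_or_gt_of_ne h.1 with hlt | hlt
      · exact h.2.1 hlt (diffJ_of hq H hQm hNQ hr hM hB hlt (fun m hm => hm.1 j' hj') (fun m hm => hm.1 i' hi')
          fun m hm => hm.2)
      · exact h.2.2 hlt (diffJ_of hq H hQm hNQ hr hM hB hlt (fun m hm => hm.1 i' hi') (fun m hm => hm.1 j' hj')
          fun m hm => hm.2))
  refine ⟨M, hM, fun N hN hd => ?_⟩
  obtain ⟨L, hL⟩ := hall N hN hd
  refine ⟨L, fun T hT u => le_trans ?_ (hL T hT u)⟩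
  exact mul_le_mul_of_nonneg_right (by linarith) (Nat.cast_nonneg _)

/-- odd moduli: replace `q` by `2 q` -/
theorem hfB' (hCB : St_CB) : ∃ δ : ℝ, 0 < δ ∧ ∃ J : ℕ, ∀ (q a : ℕ), 0 < q → Squarefree q →
    a.Coprime q →
    ∃ M : ℕ, 0 < M ∧ ∀ N : ℕ, 0 < N → M ∣ N → ∃ L : ℕ, ∀ T : ℕ, L ≤ T → ∀ u : ℕ,
      (1 / 2 + δ) * T ≤ ({k : ℕ | u < k ∧ k ≤ u + T ∧ ∃ j : ℕ, 1 ≤ j ∧ j ≤ J ∧ ∀ η : ℝ, 0 < η →
        ∃ᶠ x : ℝ in atTop, x ^ (1 - η) ≤ ({n : ℕ | (Nat.nth Nat.Prime n : ℝ) ≤ x ∧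
            Nat.nth Nat.Prime n ≡ a [MOD q] ∧
            Nat.nth Nat.Prime (n + j) = Nat.nth Nat.Prime n + N * k}.ncard : ℝ)}.ncard : ℝ) := by
  classical
  obtain ⟨δ, hδ, J, hJ⟩ := hfB hCB
  refine ⟨δ, hδ, J, fun q a hq hsq ha => ?_⟩
  -- an even modulus
  obtain ⟨q', a', hq', h2q', hsq', ha', hqq', haa'⟩ : ∃ q' a' : ℕ, 0 < q' ∧ 2 ∣ q' ∧ Squarefree q' ∧
      a'.Coprime q' ∧ q ∣ q' ∧ a' ≡ a [MOD q] := by
    by_cases h2 : 2 ∣ q
    · exact ⟨q, a, hq, h2, hsq, ha, dvd_rfl, Nat.ModEq.refl _⟩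
    · have hodd : Nat.Coprime 2 q := (Nat.Prime.coprime_iff_not_dvd Nat.prime_two).2 h2
      have hsq2 : Squarefree (2 * q) := (Nat.squarefree_mul hodd).2 ⟨Nat.prime_two.squarefree, hsq⟩
      by_cases h3 : 2 ∣ a
      · refine ⟨2 * q, a + q, by omega, Dvd.intro _ rfl, hsq2, ?_, Dvd.intro_left _ rfl, ?_⟩
        · rw [Nat.coprime_mul_iff_right]
          refine ⟨?_, ?_⟩
          · rw [Nat.coprime_comm]
            exact (Nat.Prime.coprime_iff_not_dvd Nat.prime_two).2 (by omega)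
          · simpa using ha
        · exact (Nat.modEq_iff_dvd' (Nat.le_add_right _ _)).2 (by simp) |>.symm
      · refine ⟨2 * q, a, by omega, Dvd.intro _ rfl, hsq2, ?_, Dvd.intro_left _ rfl, Nat.ModEq.refl _⟩
        rw [Nat.coprime_mul_iff_right]
        refine ⟨?_, ha⟩
        rw [Nat.coprime_comm]
        exact (Nat.Prime.coprime_iff_not_dvd Nat.prime_two).2 h3
  obtain ⟨M, hM, h⟩ := hJ q' a' hq' h2q' hsq' ha'
  refine ⟨q' * M, Nat.mul_pos hq' hM, fun N hN hd => ?_⟩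
  obtain ⟨t, rfl⟩ := hd
  have ht : 0 < t := Nat.pos_of_ne_zero (by rintro rfl; simp at hN)
  obtain ⟨L, hL⟩ := h (M * t) (Nat.mul_pos hM ht) (Dvd.intro _ rfl)
  refine ⟨L, fun T hT u => (hL T hT u).trans ?_⟩
  rw [Nat.cast_le]
  refine Set.ncard_le_ncard ?_ ((Set.finite_Ioc u (u + T)).subset fun k hk => ⟨hk.1, hk.2.1⟩)
  rintro k ⟨h1, h2, h3⟩
  refine ⟨h1, h2, ?_⟩
  obtain ⟨j, hj1, hj2, h4⟩ := nthJ hq' h3
  refine ⟨j, hj1, hj2, fun η hη => (h4 η hη).mono fun x hx => hx.trans ?_⟩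
  have e : q' * M * t * k = q' * (M * t * k) := by ring
  rw [e]
  rw [Nat.cast_le]
  refine Set.ncard_le_ncard ?_ ?_
  · rintro n ⟨g1, g2, g3⟩
    exact ⟨g1, (g2.of_dvd hqq').trans haa', g3⟩
  · apply (Set.finite_Iic ⌊x⌋₊).subset
    rintro n ⟨h, -⟩
    rw [Set.mem_Iic]
    apply Nat.le_floor
    have h1 := Nat.add_two_le_nth_prime n
    have h2 : (n : ℝ) ≤ Nat.nth Nat.Prime n := by exact_mod_cast (by omega : n ≤ Nat.nth Nat.Prime n)
    linarith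

end Pool.Agent.W142.TB
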